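import Pool.Agent.helper99.IT.Spec
import Pool.Agent.helper17.AT.PRT
import Pool.Agent.helper39.MT.Main

set_option autoImplicit false

namespace Pool.Agent.IT

open Finset Pool.Agent.AT

theorem EVT_br_succ (a b m : ℕ) : br a b (m + 1) = b * br a b m + a ^ m := by
  unfold br
  rw [Finset.sum_range_succ, Finset.mul_sum]
  have h1 : m + 1 - 1 - m = 0 := by omega
  rw [h1, pow_zero, mul_one]
  congr 1
  refine Finset.sum_congr rfl (fun i hi => ?_)
  rw [Finset.mem_range] at hi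
  have h2 : m + 1 - 1 - i = (m - 1 - i) + 1 := by omega
  rw [h2, pow_succ]
  ring

theorem EVT_br_zero (a b : ℕ) : br a b 0 = 0 := by
  unfold br
  simp

theorem EVT_br_pos (a b m : ℕ) (ha : 1 ≤ a) (hm : 1 ≤ m) : 0 < br a b m := by
  obtain ⟨k, rfl⟩ : ∃ k, m = k + 1 := ⟨m - 1, by omega⟩
  rw [EVT_br_succ]
  have : 0 < a ^ k := by positivity
  omega

theorem EVT_orb (a b E : ℕ) (c : ℤ) (h : ℕ → ℤ) (hh : ∀ i < E, (a : ℤ) * h (i + 1) = b * h i + c) (e : ℕ) :
    ∀ m : ℕ, e + m ≤ E → (a : ℤ) ^ m * h (e + m) = (b : ℤ) ^ m * h e + c * (br a b m : ℤ) := by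
  intro m
  induction m with
  | zero =>
    intro _
    rw [EVT_br_zero]
    simp
  | succ m ih =>
    intro hm
    have h1 := ih (by omega)
    have h2 := hh (e + m) (by omega)
    rw [EVT_br_succ]
    push_cast
    have h3 : e + (m + 1) = e + m + 1 := by ring
    rw [h3]
    calc (a : ℤ) ^ (m + 1) * h (e + m + 1) = (a : ℤ) ^ m * ((a : ℤ) * h (e + m + 1)) := by ring
      _ = (a : ℤ) ^ m * (b * h (e + m) + c) := by rw [h2]
      _ = b * ((a : ℤ) ^ m * h (e + m)) + (a : ℤ) ^ m * c := by ring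
      _ = b * ((b : ℤ) ^ m * h e + c * (br a b m : ℤ)) + (a : ℤ) ^ m * c := by rw [h1]
      _ = (b : ℤ) ^ (m + 1) * h e + c * ((b : ℤ) * (br a b m : ℤ) + (a : ℤ) ^ m) := by ring

theorem EVT_np (a b E : ℕ) (c : ℤ) (h : ℕ → ℤ) (ha : 1 ≤ a) (hb : 1 ≤ b) (hc : c ≠ 0)
    (hh : ∀ i < E, (a : ℤ) * h (i + 1) = b * h i + c) (e e' : ℕ) (hee : e < e') (he' : e' ≤ E) :
    ((a ^ (E - e) * b ^ e : ℕ) : ℤ) * h e' - ((a ^ (E - e') * b ^ e' : ℕ) : ℤ) * h e ≠ 0 := by
  obtain ⟨m, rfl⟩ : ∃ m, e' = e + m := ⟨e' - e, by omega⟩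
  have h1 := EVT_orb a b E c h hh e m he'
  have h2 : a ^ (E - e) = a ^ (E - (e + m)) * a ^ m := by
    rw [← pow_add]
    congr 1
    omega
  have h3 : ((a ^ (E - e) * b ^ e : ℕ) : ℤ) * h (e + m) - ((a ^ (E - (e + m)) * b ^ (e + m) : ℕ) : ℤ) * h e =
      (a : ℤ) ^ (E - (e + m)) * (b : ℤ) ^ e * (c * (br a b m : ℤ)) := by
    rw [h2]
    push_cast
    have h4 : c * (br a b m : ℤ) = (a : ℤ) ^ m * h (e + m) - (b : ℤ) ^ m * h e := by
      rw [h1]
      ring
    rw [h4]
    ring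
  rw [h3]
  have h5 : (br a b m : ℤ) ≠ 0 := by
    have := EVT_br_pos a b m ha (by omega)
    exact_mod_cast this.ne'
  have h6 : (a : ℤ) ≠ 0 := by
    have : a ≠ 0 := by omega
    exact_mod_cast this
  have h7 : (b : ℤ) ≠ 0 := by
    have : b ≠ 0 := by omega
    exact_mod_cast this
  exact mul_ne_zero (mul_ne_zero (pow_ne_zero _ h6) (pow_ne_zero _ h7)) (mul_ne_zero hc h5)

theorem EVT_brz (l a b e : ℕ) [Fact l.Prime] (ha : (a : ZMod l) ≠ 0) (hb : (b : ZMod l) ≠ 0)
    (he : (l - 1) * l ∣ e) : ((br a b e : ℕ) : ZMod l) = 0 := by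
  have h1 : ((br a b e : ℕ) : ZMod l) = ∑ i ∈ range e, (a : ZMod l) ^ i * (b : ZMod l) ^ (e - 1 - i) := by
    unfold br
    push_cast
    rfl
  rw [h1]
  have hl1 : (l - 1) ∣ e := (Dvd.intro _ rfl : (l - 1) ∣ (l - 1) * l).trans he
  have hl2 : l ∣ e := (Dvd.intro_left _ rfl : l ∣ (l - 1) * l).trans he
  have pa : ∀ x : ZMod l, x ≠ 0 → x ^ e = 1 := by
    intro x hx
    obtain ⟨t, ht⟩ := hl1
    rw [ht, pow_mul, ZMod.pow_card_sub_one_eq_one hx, one_pow]
  by_cases hab : (a : ZMod l) = b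
  · rw [hab, geom_sum₂_self]
    have : ((e : ℕ) : ZMod l) = 0 := (ZMod.natCast_eq_zero_iff e l).2 hl2
    rw [this, zero_mul]
  · have h2 := (Commute.all (a : ZMod l) (b : ZMod l)).mul_geom_sum₂ e
    rw [pa _ ha, pa _ hb, sub_self] at h2
    rcases mul_eq_zero.1 h2 with h3 | h3
    · exact absurd (sub_eq_zero.1 h3) hab
    · exact h3

theorem EVT_adm (k a b E : ℕ) (c : ℤ) (h : ℕ → ℤ) (hab : Nat.Coprime a b)
    (hac : IsCoprime (a : ℤ) c) (hbc : IsCoprime (b : ℤ) c)
    (hh : ∀ i < E, (a : ℤ) * h (i + 1) = b * h i + c) (e : Fin k → ℕ) (he : ∀ i, e i < E)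
    (hk : ∀ i, k.factorial ∣ e i) (l : ℕ) (hl : l.Prime) :
    ∃ n : ℕ, ∀ i, ¬ (l : ℤ) ∣ ((a ^ (E - e i) * b ^ (e i) : ℕ) : ℤ) * n + h (e i) := by
  haveI : Fact l.Prime := ⟨hl⟩
  have hcast : ∀ z : ℤ, ((z : ℤ) : ZMod l) = 0 ↔ (l : ℤ) ∣ z := fun z => CharP.intCast_eq_zero_iff (ZMod l) l z
  have hnc : ∀ {x y : ℤ}, IsCoprime x y → (l : ℤ) ∣ x → ¬ (l : ℤ) ∣ y := by
    intro x y hxy hx hy
    have h1 := hxy.isUnit_of_dvd' hx hy
    rw [Int.isUnit_iff] at h1
    have h2 := hl.two_le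
    omega
  have habz : IsCoprime (a : ℤ) (b : ℤ) := Nat.isCoprime_iff_coprime.2 hab
  by_cases hla : (l : ℤ) ∣ (a : ℤ)
  · -- l divides a
    have hc := hnc hac hla
    refine ⟨0, fun i => ?_⟩
    intro hd
    have h1 : (l : ℤ) ∣ h (e i) := by simpa using hd
    have h2 := hh (e i) (he i)
    apply hc
    have h3 : c = (a : ℤ) * h (e i + 1) - b * h (e i) := by rw [h2]; ring
    rw [h3]
    exact dvd_sub (hla.mul_right _) (h1.mul_left _)
  by_cases hlb : (l : ℤ) ∣ (b : ℤ)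
  · have hc := hnc hbc hlb
    have haz : ((a : ℕ) : ZMod l) ≠ 0 := by
      intro h0
      apply hla
      rw [← hcast]
      exact_mod_cast h0
    refine ⟨((1 - ((h 0 : ℤ) : ZMod l)) / (a : ZMod l) ^ E).val, fun i => ?_⟩
    by_cases hi : e i = 0
    · rw [hi, ← hcast]
      push_cast
      rw [ZMod.natCast_zmod_val, Nat.sub_zero, pow_zero, mul_one, mul_div_cancel₀ _ (pow_ne_zero _ haz)]
      simp
    · intro hd
      obtain ⟨j, hj⟩ : ∃ j, e i = j + 1 := ⟨e i - 1, by omega⟩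
      have h2 := hh j (by have := he i; omega)
      have h4 : (l : ℤ) ∣ ((a ^ (E - e i) * b ^ (e i) : ℕ) : ℤ) * (((1 - ((h 0 : ℤ) : ZMod l)) / (a : ZMod l) ^ E).val : ℤ) := by
        refine Dvd.dvd.mul_right ?_ _
        push_cast
        refine Dvd.dvd.mul_left ?_ _
        rw [hj, pow_succ]
        exact Dvd.dvd.mul_left hlb _
      have h5 : (l : ℤ) ∣ h (e i) := (dvd_add_right h4).1 hd
      apply hc
      have h3 : c = (a : ℤ) * h (e i) - b * h j := by rw [hj, h2]; ring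
      rw [h3]
      exact dvd_sub (h5.mul_left _) (hlb.mul_right _)
  · have haz : ((a : ℕ) : ZMod l) ≠ 0 := by
      intro h0
      apply hla
      rw [← hcast]
      exact_mod_cast h0
    have hbz : ((b : ℕ) : ZMod l) ≠ 0 := by
      intro h0
      apply hlb
      rw [← hcast]
      exact_mod_cast h0
    have hx : ∃ x : ZMod l, ∀ i, (b : ZMod l) ^ (e i) * x + (c : ZMod l) * ((br a b (e i) : ℕ) : ZMod l) ≠ 0 := by
      by_cases hkl : l ≤ k
      · refine ⟨1, fun i => ?_⟩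
        have h1 : (l - 1) * l ∣ e i := by
          refine Dvd.dvd.trans ?_ (hk i)
          have h2 : (l - 1) * l ∣ l.factorial := by
            obtain ⟨t, rfl⟩ : ∃ t, l = t + 2 := ⟨l - 2, by have := hl.two_le; omega⟩
            have h3 : (t + 2).factorial = (t + 2) * ((t + 1) * t.factorial) := by
              rw [Nat.factorial_succ, Nat.factorial_succ]
            rw [h3]
            refine ⟨t.factorial, ?_⟩
            have h4 : t + 2 - 1 = t + 1 := by omega
            rw [h4]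
            ring
          exact h2.trans (Nat.factorial_dvd_factorial hkl)
        rw [EVT_brz l a b (e i) haz hbz h1, mul_zero, add_zero, mul_one]
        exact pow_ne_zero _ hbz
      · classical
        have h1 : ((Finset.univ : Finset (Fin k)).image (fun i => -((c : ZMod l) * ((br a b (e i) : ℕ) : ZMod l)) / (b : ZMod l) ^ (e i))).card <
            Fintype.card (ZMod l) := by
          refine Finset.card_image_le.trans_lt ?_
          rw [Finset.card_univ, Fintype.card_fin, ZMod.card]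
          omega
        obtain ⟨x, hx⟩ : ∃ x, x ∉ (Finset.univ : Finset (Fin k)).image (fun i => -((c : ZMod l) * ((br a b (e i) : ℕ) : ZMod l)) / (b : ZMod l) ^ (e i)) := by
          by_contra hcon
          push_neg at hcon
          have h2 : (Finset.univ : Finset (Fin k)).image (fun i => -((c : ZMod l) * ((br a b (e i) : ℕ) : ZMod l)) / (b : ZMod l) ^ (e i)) = Finset.univ :=
            Finset.eq_univ_iff_forall.2 hcon
          rw [h2, Finset.card_univ] at h1
          exact lt_irrefl _ h1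
        refine ⟨x, fun i h0 => ?_⟩
        apply hx
        refine Finset.mem_image.2 ⟨i, Finset.mem_univ _, ?_⟩
        rw [div_eq_iff (pow_ne_zero _ hbz)]
        linear_combination -h0
    obtain ⟨x, hx⟩ := hx
    refine ⟨((x - ((h 0 : ℤ) : ZMod l)) / (a : ZMod l) ^ E).val, fun i => ?_⟩
    rw [← hcast]
    intro h0
    push_cast at h0
    rw [ZMod.natCast_zmod_val] at h0
    apply hx i
    have h1 := EVT_orb a b E c h hh 0 (e i) (by have := he i; omega)
    rw [zero_add] at h1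
    have h2 : ((a : ℕ) : ZMod l) ^ (e i) * ((h (e i) : ℤ) : ZMod l) = (b : ZMod l) ^ (e i) * ((h 0 : ℤ) : ZMod l) + (c : ZMod l) * ((br a b (e i) : ℕ) : ZMod l) := by
      have := congrArg (fun z : ℤ => (z : ZMod l)) h1
      push_cast at this
      exact this
    have h3 : (a : ZMod l) ^ E = (a : ZMod l) ^ (e i) * (a : ZMod l) ^ (E - e i) := by
      rw [← pow_add]
      congr 1
      have := he i
      omega
    obtain ⟨y, hy⟩ : ∃ y, y = (x - ((h 0 : ℤ) : ZMod l)) / (a : ZMod l) ^ E := ⟨_, rfl⟩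
    have h4 : (a : ZMod l) ^ E * y = x - ((h 0 : ℤ) : ZMod l) := by
      rw [hy]
      exact mul_div_cancel₀ _ (pow_ne_zero _ haz)
    rw [← hy] at h0
    have h5 : (b : ZMod l) ^ (e i) * x + (c : ZMod l) * ((br a b (e i) : ℕ) : ZMod l) =
        (a : ZMod l) ^ (e i) * ((a : ZMod l) ^ (E - e i) * (b : ZMod l) ^ (e i) * y + ((h (e i) : ℤ) : ZMod l)) := by
      rw [mul_add, h2]
      linear_combination (-((b : ZMod l) ^ (e i))) * h4 + ((b : ZMod l) ^ (e i) * y) * h3
    rw [h5, h0, mul_zero]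

theorem EVT (hORB : ORB_stmt) (hPRI : PRI_stmt) : EVT_stmt := by
  classical
  obtain ⟨k, hk2, hMT⟩ := Pool.Agent.helper39.MT.maynard_tao 1
  refine ⟨k * k.factorial, ?_⟩
  rintro a b c ⟨ha, hb, hc, hab, hac, hbc, -⟩
  set E := k * k.factorial with hE
  obtain ⟨h, hh⟩ := hORB a b E c ha hb hab
  have hfac : 0 < k.factorial := Nat.factorial_pos k
  set e : Fin k → ℕ := fun i => (i : ℕ) * k.factorial with he
  have heE : ∀ i, e i < E := fun i => Nat.mul_lt_mul_of_pos_right i.2 hfac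
  have hadm := EVT_adm k a b E c h hab hac hbc hh e heE (fun i => Dvd.intro_left _ rfl)
  have hpos : ∀ i, 0 < a ^ (E - e i) * b ^ (e i) := fun i => by positivity
  have hnp : ∀ i j : Fin k, i < j → ((a ^ (E - e i) * b ^ (e i) : ℕ) : ℤ) * h (e j) ≠ ((a ^ (E - e j) * b ^ (e j) : ℕ) : ℤ) * h (e i) := by
    intro i j hij h0
    have h1 : e i < e j := Nat.mul_lt_mul_of_pos_right hij hfac
    exact EVT_np a b E c h ha hb hc hh (e i) (e j) h1 (heE j).le (sub_eq_zero.2 h0)
  have hM := hMT (fun i => a ^ (E - e i) * b ^ (e i)) (fun i => h (e i)) hpos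
    (by
      intro i j hij
      rcases lt_or_gt_of_ne hij with h1 | h1
      · exact hnp i j h1
      · exact (hnp j i h1).symm)
    hadm
  have hpair : ∃ i j : Fin k, i < j ∧ ∀ N : ℕ, ∃ n ≥ N, (ev (a ^ (E - e j) * b ^ (e j), h (e j)) n).Prime ∧ (ev (a ^ (E - e i) * b ^ (e i), h (e i)) n).Prime := by
    by_contra hcon
    push_neg at hcon
    have hc2 : ∀ x : Fin k × Fin k, ∃ N : ℕ, x.1 < x.2 → ∀ n ≥ N, (ev (a ^ (E - e x.2) * b ^ (e x.2), h (e x.2)) n).Prime → ¬ (ev (a ^ (E - e x.1) * b ^ (e x.1), h (e x.1)) n).Prime := by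
      intro x
      by_cases hx : x.1 < x.2
      · obtain ⟨N, hN⟩ := hcon x.1 x.2 hx
        exact ⟨N, fun _ => hN⟩
      · exact ⟨0, fun h1 => absurd h1 hx⟩
    choose N hN using hc2
    obtain ⟨n, hn, hcard⟩ := hM (∑ x : Fin k × Fin k, N x)
    rw [Finset.one_lt_card] at hcard
    obtain ⟨i, hi, j, hj, hij⟩ := hcard
    rw [Finset.mem_filter] at hi hj
    have hle : ∀ x : Fin k × Fin k, N x ≤ n := fun x =>
      (Finset.single_le_sum (f := N) (fun _ _ => Nat.zero_le _) (Finset.mem_univ x)).trans hn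
    rcases lt_or_gt_of_ne hij with h1 | h1
    · exact hN (i, j) h1 n (hle _) hj.2 hi.2
    · exact hN (j, i) h1 n (hle _) hi.2 hj.2
  obtain ⟨i, j, hij, hinf⟩ := hpair
  have hlt : e i < e j := Nat.mul_lt_mul_of_pos_right hij hfac
  have hP := PRT (a ^ (E - e j) * b ^ (e j), h (e j)) (a ^ (E - e i) * b ^ (e i), h (e i)) (hpos j) (hpos i)
    (by
      intro h0
      have h1 := congrArg Prod.fst h0
      have h2 := congrArg Prod.snd h0
      simp only at h1 h2
      apply hnp i j hij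
      rw [h1, h2])
    (by
      intro p hp
      obtain ⟨n, hn⟩ := hadm p hp
      refine ⟨n, ?_⟩
      intro t
      fin_cases t
      · exact hn j
      · exact hn i)
    hinf
  refine ⟨e j - e i, by omega, by have := heE j; omega, ?_⟩
  exact hPRI a b E c h (e i) (e j) ha hb hab hh hlt (heE j).le hP

end Pool.Agent.IT
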